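import Pool.Agent.Helper187.CC.Stmts

/-!
# Project H187-CYCLE, task `TaskP1t`
-/

set_option autoImplicit false
open Finset

namespace H383CC

open H187CC

variable {A : Type}

lemma seg_snoc (x : ℕ → A) (a k : ℕ) : seg x a (k + 1) = seg x a k ++ [x (a + k)] := by
  rw [seg_append]; rfl

lemma seg_dropLast (x : ℕ → A) (a k : ℕ) : (seg x a (k + 1)).dropLast = seg x a k := by
  rw [seg_snoc, List.dropLast_concat]

lemma seg_getLast (x : ℕ → A) (a k : ℕ) : (seg x a (k + 1)).getLast? = some (x (a + k)) := by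
  rw [seg_snoc, List.getLast?_concat]

lemma ind_pos {p : Prop} (h : p) : ind p = 1 := by
  unfold ind; rw [if_pos h]

lemma ind_neg {p : Prop} (h : ¬ p) : ind p = 0 := by
  unfold ind; rw [if_neg h]

lemma Delta_cons3 (t : ℝ) (a b c : A) (w : List A) : Delta t (a :: b :: c :: w) =
    ind (Proper (a :: b :: c :: w)) * ((1 + t) * t ^ ((c :: w).length) *
      pi' t ((b :: c :: w).dropLast) *
        (ind (some a = (c :: w).getLast?) - ind (some b = (c :: w).getLast?)
          - ind (some a = (b :: c :: w).dropLast.getLast?)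
          + ind (some b = (b :: c :: w).dropLast.getLast?))) := rfl

lemma Delta_seg (t : ℝ) (x : ℕ → A) (i k : ℕ) :
    Delta t (seg x i (k + 3)) = ind (Proper (seg x i (k + 3))) *
      ((1 + t) * t ^ (k + 1) * pi' t (seg x (i + 1) (k + 1)) *
        (ind (x i = x (i + k + 2)) - ind (x (i + 1) = x (i + k + 2))
          - ind (x i = x (i + k + 1)) + ind (x (i + 1) = x (i + k + 1)))) := by
  have e1 : seg x i (k + 3) = x i :: x (i + 1) :: x (i + 1 + 1) :: seg x (i + 1 + 1 + 1) k := rfl
  have e2 : (x (i + 1) :: x (i + 1 + 1) :: seg x (i + 1 + 1 + 1) k).dropLast =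
      seg x (i + 1) (k + 1) := seg_dropLast x (i + 1) (k + 1)
  have e3 : (x (i + 1 + 1) :: seg x (i + 1 + 1 + 1) k).getLast? = some (x (i + k + 2)) := by
    have := seg_getLast x (i + 1 + 1) k
    rw [show i + 1 + 1 + k = i + k + 2 by ring] at this
    exact this
  have e4 : (seg x (i + 1) (k + 1)).getLast? = some (x (i + k + 1)) := by
    have := seg_getLast x (i + 1) k
    rw [show i + 1 + k = i + k + 1 by ring] at this
    exact this
  have e5 : (x (i + 1 + 1) :: seg x (i + 1 + 1 + 1) k).length = k + 1 := by simp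
  rw [e1, Delta_cons3, e2, e3, e4, e5]
  simp only [Option.some.injEq]

lemma Delta_improper (t : ℝ) (w : List A) (h : ¬ Proper w) : Delta t w = 0 := by
  match w, h with
  | [], h => exact absurd trivial h
  | [_], h => exact absurd trivial h
  | [a, b], h =>
    have : ¬ a ≠ b := fun hab => h ⟨hab, trivial⟩
    show ind (a ≠ b) * (-((1 + t) / (1 - t))) = 0
    rw [ind_neg this, zero_mul]
  | a :: b :: c :: w, h =>
    rw [Delta_cons3, ind_neg h, zero_mul]

lemma tele (p Ω : ℕ → ℝ) (m : ℕ) :
    ∑ j ∈ range (m + 1), p j * (Ω (j + 1) - Ω j) =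
      ∑ j ∈ range m, Ω (j + 1) * (p j - p (j + 1)) + p m * Ω (m + 1) - p 0 * Ω 0 := by
  induction m with
  | zero => simp; ring
  | succ m ih => rw [sum_range_succ, ih, sum_range_succ _ m]; ring

lemma el_apply (f : List A → ℝ) (x : ℕ → A) {a b : ℕ} (h : a ≤ b) :
    el f x a b = f (seg x a (b + 1 - a)) := by
  show (if a ≤ b then f (seg x a (b + 1 - a)) else 0) = _
  rw [if_pos h]

lemma mul_expand (f g : List A → ℝ) (x : ℕ → A) (a m : ℕ) :
    (el f x * el g x) a (a + (m + 1)) =
      ∑ j ∈ range (m + 2), f (seg x a (j + 1)) * g (seg x (a + j) (m + 2 - j)) := by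
  rw [IncidenceAlgebra.mul_apply]
  have hI : Finset.Icc a (a + (m + 1)) = Finset.Ico a (a + (m + 2)) := by
    ext i; simp only [Finset.mem_Icc, Finset.mem_Ico]; omega
  rw [hI, Finset.sum_Ico_eq_sum_range, show a + (m + 2) - a = m + 2 by omega]
  refine Finset.sum_congr rfl fun j hj => ?_
  rw [Finset.mem_range] at hj
  rw [el_apply f x (by omega), el_apply g x (by omega),
    show a + j + 1 - a = j + 1 by omega, show a + (m + 1) + 1 - (a + j) = m + 2 - j by omega]

/-- the key sum over the cuts -/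
lemma cut_sum (hSC : TaskSC) (hN3 : TaskN3) (t : ℝ) (h0 : 0 < t) (h1 : t < 1) (x : ℕ → A)
    (a m : ℕ) (e : A) :
    ∑ j ∈ range m, (phi t (seg x a (j + 1)) * pi' t (seg x (a + (j + 1)) (m + 1 - (j + 1)))) *
        (ind (x (a + j) = e) - ind (x (a + (j + 1)) = e)) =
      t / (1 + t) * (phi t (seg x a (m + 1)) / (1 - t) - phi t (seg x a (m + 1) ++ [e])) -
        ind (x (a + m) = e) * (phi t (seg x a (m + 1)) / (1 - t)) +
        ind (x (a + 0) = e) * pi' t (seg x a (m + 1)) := by
  have hSC' := hSC A t h0 h1 e (seg x a (m + 1))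
  have hN3' := hN3 A t h0 h1 e (seg x a (m + 1))
  rw [vspl_seg] at hSC' hN3'
  have r1 : ∑ j ∈ range (m + 1), ind (x (a + j) = e) *
      ((fun k => phi t (seg x a k) * phi t (seg x (a + k) (m + 1 - k))) (j + 1) -
       (fun k => phi t (seg x a k) * phi t (seg x (a + k) (m + 1 - k))) j) = 0 := by
    rw [← hSC']
    refine Finset.sum_congr rfl fun j hj => ?_
    rw [Finset.mem_range] at hj
    have e1 : x (a + j) :: seg x (a + j + 1) (m + 1 - 1 - j) = seg x (a + j) (m + 1 - j) := by
      rw [show m + 1 - j = (m + 1 - 1 - j) + 1 by omega, seg_succ]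
    have e2 : m + 1 - (j + 1) = m + 1 - 1 - j := by omega
    beta_reduce
    rw [e1, ← seg_snoc, e2, add_assoc]
  have r2 : (1 + t) * ∑ j ∈ range (m + 1), ind (x (a + j) = e) *
      ((fun k => t ^ (m + 1 - k) * (phi t (seg x a k) * pi' t (seg x (a + k) (m + 1 - k)))) (j + 1) -
       (fun k => t ^ (m + 1 - k) * (phi t (seg x a k) * pi' t (seg x (a + k) (m + 1 - k)))) j) =
      phi t (seg x a (m + 1)) / (1 - t) - phi t (seg x a (m + 1) ++ [e]) := by
    rw [← hN3']
    congr 1
    refine Finset.sum_congr rfl fun j hj => ?_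
    rw [Finset.mem_range] at hj
    have e1 : x (a + j) :: seg x (a + j + 1) (m + 1 - 1 - j) = seg x (a + j) (m + 1 - j) := by
      rw [show m + 1 - j = (m + 1 - 1 - j) + 1 by omega, seg_succ]
    have e2 : m + 1 - (j + 1) = m + 1 - 1 - j := by omega
    have e3 : m + 1 - 1 - j + 1 = m + 1 - j := by omega
    simp only [seg_length]
    rw [e1, ← seg_snoc, e2, e3, add_assoc]
  have r3 := tele (fun j => ind (x (a + j) = e))
    (fun k => phi t (seg x a k) * pi' t (seg x (a + k) (m + 1 - k))) m
  have r4 : ∑ j ∈ range (m + 1), ind (x (a + j) = e) *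
      ((fun k => phi t (seg x a k) * pi' t (seg x (a + k) (m + 1 - k))) (j + 1) -
       (fun k => phi t (seg x a k) * pi' t (seg x (a + k) (m + 1 - k))) j) =
      ∑ j ∈ range (m + 1), ind (x (a + j) = e) *
      ((fun k => phi t (seg x a k) * phi t (seg x (a + k) (m + 1 - k))) (j + 1) -
       (fun k => phi t (seg x a k) * phi t (seg x (a + k) (m + 1 - k))) j) +
      t * ∑ j ∈ range (m + 1), ind (x (a + j) = e) *
      ((fun k => t ^ (m + 1 - k) * (phi t (seg x a k) * pi' t (seg x (a + k) (m + 1 - k)))) (j + 1) -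
       (fun k => t ^ (m + 1 - k) * (phi t (seg x a k) * pi' t (seg x (a + k) (m + 1 - k)))) j) := by
    rw [Finset.mul_sum, ← Finset.sum_add_distrib]
    refine Finset.sum_congr rfl fun j hj => ?_
    have key : ∀ k, phi t (seg x (a + k) (m + 1 - k)) =
        (1 - t ^ (m + 1 - k + 1)) * pi' t (seg x (a + k) (m + 1 - k)) := by
      intro k
      have := phi_eq_pi t h0 h1 (seg x (a + k) (m + 1 - k))
      rwa [seg_length] at this
    beta_reduce
    rw [key (j + 1), key j]
    ring
  have ht : (1 + t) ≠ 0 := by linarith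
  have r5 : ∑ j ∈ range (m + 1), ind (x (a + j) = e) *
      ((fun k => t ^ (m + 1 - k) * (phi t (seg x a k) * pi' t (seg x (a + k) (m + 1 - k)))) (j + 1) -
       (fun k => t ^ (m + 1 - k) * (phi t (seg x a k) * pi' t (seg x (a + k) (m + 1 - k)))) j) =
      (phi t (seg x a (m + 1)) / (1 - t) - phi t (seg x a (m + 1) ++ [e])) / (1 + t) := by
    rw [eq_div_iff ht, ← r2]; ring
  rw [r4, r1, r5] at r3
  beta_reduce at r3
  have z1 : m + 1 - (m + 1) = 0 := by omega
  have z2 : m + 1 - 0 = m + 1 := by omega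
  rw [z1, z2] at r3
  simp only [seg_zero, phi_nil, pi_nil, add_zero] at r3 ⊢
  have r6 : t / (1 + t) * (phi t (seg x a (m + 1)) / (1 - t) - phi t (seg x a (m + 1) ++ [e])) =
      0 + t * ((phi t (seg x a (m + 1)) / (1 - t) - phi t (seg x a (m + 1) ++ [e])) / (1 + t)) := by
    ring
  rw [r6, r3]
  ring

end H383CC

open H187CC H383CC in
theorem H187CC.taskP1t : H187CC.TaskP1t := by
  intro hSC hN3 A t h0 h1 x a b hab
  obtain ⟨m, rfl⟩ : ∃ m, b = a + (m + 1) := ⟨b - a - 1, by omega⟩
  have hsub1 : a + (m + 1) + 1 - a = m + 2 := by omega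
  have hsub2 : a + (m + 1) - a = m + 1 := by omega
  have hsub3 : a + (m + 1) - 1 = a + m := by omega
  rw [hsub1, hsub2, hsub3, mul_expand]
  by_cases hP : Proper (seg x a (m + 2))
  · rw [ind_pos hP, one_mul]
    have hne : x (a + m) ≠ x (a + (m + 1)) := by
      have h3 : seg x a (m + 2) = seg x a m ++ seg x (a + m) 2 := seg_append x a m 2
      rw [h3] at hP
      exact (Proper_append_right hP).1
    rw [sum_range_succ, sum_range_succ]
    have l1 : m + 2 - (m + 1) = 1 := by omega
    have l2 : m + 2 - m = 2 := by omega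
    rw [l1, l2]
    have d1 : Delta t (seg x (a + (m + 1)) 1) = 1 := rfl
    have d2 : Delta t (seg x (a + m) 2) = -((1 + t) / (1 - t)) := by
      show ind (x (a + m) ≠ x (a + m + 1)) * (-((1 + t) / (1 - t))) = _
      rw [ind_pos (by exact hne), one_mul]
    rw [d1, d2]
    have d3 : ∀ j ∈ range m, (fun w => t ^ w.length * phi t w) (seg x a (j + 1)) *
        Delta t (seg x (a + j) (m + 2 - j)) =
        ((1 + t) * t ^ (m + 1)) *
        ((phi t (seg x a (j + 1)) * pi' t (seg x (a + (j + 1)) (m + 1 - (j + 1)))) *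
          (ind (x (a + j) = x (a + (m + 1))) - ind (x (a + (j + 1)) = x (a + (m + 1)))) -
        (phi t (seg x a (j + 1)) * pi' t (seg x (a + (j + 1)) (m + 1 - (j + 1)))) *
          (ind (x (a + j) = x (a + m)) - ind (x (a + (j + 1)) = x (a + m)))) := by
      intro j hj
      rw [Finset.mem_range] at hj
      have hPj : Proper (seg x (a + j) (m + 2 - j)) := by
        have h3 : seg x a (m + 2) = seg x a j ++ seg x (a + j) (m + 2 - j) := by
          rw [← seg_append]; congr 1; omega
        rw [h3] at hP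
        exact Proper_append_right hP
      obtain ⟨k, hk⟩ : ∃ k, m = j + 1 + k := ⟨m - 1 - j, by omega⟩
      have e0 : m + 2 - j = k + 3 := by omega
      have e1 : m + 1 - (j + 1) = k + 1 := by omega
      rw [e0] at hPj ⊢
      rw [Delta_seg, ind_pos hPj, e1]
      have e2 : a + j + k + 2 = a + (m + 1) := by omega
      have e3 : a + j + k + 1 = a + m := by omega
      beta_reduce
      rw [e2, e3, seg_length, add_assoc a j 1]
      have e4 : t ^ (m + 1) = t ^ (j + 1) * t ^ (k + 1) := by
        rw [← pow_add]; congr 1; omega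
      rw [e4]
      ring
    rw [Finset.sum_congr rfl d3, ← Finset.mul_sum, Finset.sum_sub_distrib,
      cut_sum hSC hN3 t h0 h1 x a m (x (a + (m + 1))), cut_sum hSC hN3 t h0 h1 x a m (x (a + m))]
    have i1 : ind (x (a + m) = x (a + (m + 1))) = 0 := ind_neg hne
    have i2 : ind (x (a + m) = x (a + m)) = 1 := ind_pos rfl
    have i3 : phi t (seg x a (m + 1) ++ [x (a + m)]) = 0 := by
      apply phi_improper
      intro h
      rw [seg_snoc, List.append_assoc] at h
      exact (Proper_append_right h).1 rfl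
    have i4 : seg x a (m + 1) ++ [x (a + (m + 1))] = seg x a (m + 2) := (seg_snoc x a (m + 1)).symm
    rw [i1, i2, i3, i4]
    simp only [seg_length, add_zero]
    have ht : (1 + t) ≠ 0 := by linarith
    have ht' : (1 - t) ≠ 0 := by linarith
    field_simp
    ring
  · rw [ind_neg hP, zero_mul]
    refine Finset.sum_eq_zero fun j hj => ?_
    rw [Finset.mem_range] at hj
    by_cases h3 : Proper (seg x a (j + 1))
    · have h4 : ¬ Proper (seg x (a + j) (m + 2 - j)) := by
        intro h4
        apply hP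
        have e1 : m + 2 - j = (m + 1 - j) + 1 := by omega
        rw [e1, seg_succ] at h4
        rw [seg_snoc] at h3
        have h5 := Proper_glue h3 h4
        have e2 : seg x a (m + 2) = seg x a j ++ x (a + j) :: seg x (a + j + 1) (m + 1 - j) := by
          rw [← seg_succ, ← seg_append]; congr 1; omega
        rw [e2]
        exact h5
      rw [Delta_improper t _ h4, mul_zero]
    · beta_reduce
      rw [phi_improper t _ h3, mul_zero, zero_mul]
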